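import Mathlib
import Pool.Agent.H916R2.OddChar

/-! Half-interval sums of odd Dirichlet characters modulo a prime: nonvanishing and mean square. -/

open Finset

namespace Pool.Agent.H96R3

variable {p : ℕ} [hp : Fact p.Prime]

/-- The half-interval character sum. -/
noncomputable def TT (χ : DirichletCharacter ℂ p) : ℂ :=
  ∑ a ∈ range ((p + 1) / 2), χ (a : ZMod p)

/-- The odd sign function on `ZMod p`. -/
def sg (t : ZMod p) : ℤ := if t = 0 then 0 else if t.val < (p + 1) / 2 then 1 else -1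

lemma chi_zero (χ : DirichletCharacter ℂ p) : χ (0 : ZMod p) = 0 :=
  MulChar.map_nonunit χ not_isUnit_zero

lemma odd_of_three (h3 : 3 ≤ p) : p % 2 = 1 := by
  rcases hp.out.eq_two_or_odd with h | h
  · omega
  · exact h

lemma TT_eq (h3 : 3 ≤ p) (χ : DirichletCharacter ℂ p) :
    TT χ = ∑ t : ZMod p, if t.val < (p + 1) / 2 then χ t else 0 := by
  rw [← sum_filter]
  unfold TT
  refine sum_nbij' (fun a => (a : ZMod p)) (fun t => t.val) ?_ ?_ ?_ ?_ ?_
  · intro a ha
    rw [mem_range] at ha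
    simp only [mem_filter, mem_univ, true_and]
    rw [ZMod.val_natCast, Nat.mod_eq_of_lt (by omega)]
    exact ha
  · intro t ht
    simp only [mem_filter, mem_univ, true_and] at ht
    exact mem_range.2 ht
  · intro a ha
    rw [mem_range] at ha
    show ((a : ZMod p)).val = a
    rw [ZMod.val_natCast, Nat.mod_eq_of_lt (by omega)]
  · intro t _
    exact ZMod.natCast_zmod_val t
  · intro a _
    rfl

lemma val_neg_lt_iff (h3 : 3 ≤ p) {t : ZMod p} (ht : t ≠ 0) :
    ¬ ((-t).val < (p + 1) / 2) ↔ t.val < (p + 1) / 2 := by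
  have hodd := odd_of_three h3
  have : NeZero t := ⟨ht⟩
  rw [ZMod.val_neg_of_ne_zero]
  have h1 := ZMod.val_lt t
  omega

lemma sum_sg (h3 : 3 ≤ p) (χ : DirichletCharacter ℂ p) (hχ : χ.Odd) :
    ∑ t : ZMod p, χ t * (sg t : ℂ) = 2 * TT χ := by
  have h1 : ∀ t : ZMod p, χ t * (sg t : ℂ) =
      (if t.val < (p + 1) / 2 then χ t else 0) - (if ¬ (t.val < (p + 1) / 2) then χ t else 0) := by
    intro t
    unfold sg
    by_cases h0 : t = 0
    · subst h0
      simp [chi_zero]
    · by_cases h : t.val < (p + 1) / 2 <;> simp [h0, h]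
  have h2 : ∑ t : ZMod p, (if ¬ (t.val < (p + 1) / 2) then χ t else 0) = - TT χ := by
    rw [← Equiv.sum_comp (Equiv.neg (ZMod p)), TT_eq h3, ← sum_neg_distrib]
    refine sum_congr rfl fun t _ => ?_
    simp only [Equiv.neg_apply]
    by_cases h0 : t = 0
    · subst h0
      simp [chi_zero]
    · rw [DirichletCharacter.Odd.eval_neg (ψ := χ) t hχ]
      by_cases h : t.val < (p + 1) / 2
      · rw [if_pos ((val_neg_lt_iff h3 h0).2 h), if_pos h]
      · rw [if_neg (fun h' => h ((val_neg_lt_iff h3 h0).1 h')), if_neg h, neg_zero]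
  rw [sum_congr rfl fun t _ => h1 t, sum_sub_distrib, h2, TT_eq h3]
  ring

lemma saw_two (h3 : 3 ≤ p) (t : ZMod p) :
    H916R2.saw (2 * t) = 2 * H916R2.saw t + p * sg t := by
  have hodd := odd_of_three h3
  have h2 : (2 : ZMod p) ≠ 0 := by
    intro h
    have : ((2 : ℕ) : ZMod p) = 0 := by exact_mod_cast h
    rw [ZMod.natCast_eq_zero_iff] at this
    have := Nat.le_of_dvd (by norm_num) this
    omega
  unfold H916R2.saw sg
  by_cases h0 : t = 0
  · subst h0; simp
  · have h20 : 2 * t ≠ 0 := mul_ne_zero h2 h0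
    rw [if_neg h20, if_neg h0, if_neg h0]
    have hv := ZMod.val_lt t
    have hv0 : 0 < t.val := Nat.pos_of_ne_zero (by rwa [Ne, ZMod.val_eq_zero])
    have h2v : (2 * t).val = (2 * t.val) % p := by
      rw [ZMod.val_mul]
      congr 1
      have : (2 : ZMod p).val = 2 := by
        have := ZMod.val_natCast p 2
        rw [Nat.mod_eq_of_lt (by omega)] at this
        exact_mod_cast this
      rw [this]
    rw [h2v]
    by_cases h : t.val < (p + 1) / 2
    · rw [if_pos h, Nat.mod_eq_of_lt (by omega)]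
      push_cast; ring
    · rw [if_neg h]
      have : (2 * t.val) % p = 2 * t.val - p := by
        rw [Nat.mod_eq_sub_mod (by omega), Nat.mod_eq_of_lt (by omega)]
      rw [this, Nat.cast_sub (by omega)]
      push_cast; ring

/-- Nonvanishing of half-interval sums of odd characters. -/
theorem TT_ne_zero (h3 : 3 ≤ p) (χ : DirichletCharacter ℂ p) (hχ : χ.Odd) : TT χ ≠ 0 := by
  intro hT
  obtain ⟨a, ha⟩ := H916R2.exists_SS_ne_zero χ hχ
  have ha0 : a ≠ 0 := by
    rintro rfl
    apply ha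
    unfold H916R2.SS
    simp [H916R2.saw_zero]
  -- the full sum
  have hS : ∀ b : (ZMod p)ˣ, ∑ t : ZMod p, χ t * (H916R2.saw (t * (b : ZMod p)) : ℂ) =
      χ ((b⁻¹ : (ZMod p)ˣ) : ZMod p) * ∑ t : ZMod p, χ t * (H916R2.saw t : ℂ) := by
    intro b
    rw [mul_sum]
    refine Fintype.sum_equiv (Units.mulRight b) _ _ fun t => ?_
    rw [Units.mulRight_apply, ← mul_assoc, ← map_mul]
    congr 2
    show t = ((b⁻¹ : (ZMod p)ˣ) : ZMod p) * (t * (b : ZMod p))
    rw [mul_comm t, ← mul_assoc, Units.inv_mul, one_mul]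
  have hunits : ∀ b : ZMod p, H916R2.SS χ b = ∑ t : ZMod p, χ t * (H916R2.saw (t * b) : ℂ) := by
    intro b
    unfold H916R2.SS
    have hz : ∑ t : ZMod p, χ t * (H916R2.saw (t * b) : ℂ) =
        ∑ t ∈ univ.filter (fun t : ZMod p => t ≠ 0), χ t * (H916R2.saw (t * b) : ℂ) := by
      symm
      refine sum_subset (subset_univ _) fun t _ ht => ?_
      have : t = 0 := by simpa using ht
      subst this
      simp [chi_zero]
    rw [hz]
    refine sum_bij (fun (u : (ZMod p)ˣ) _ => (u : ZMod p)) ?_ ?_ ?_ ?_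
    · intro u _; simp
    · intro u _ v _ h; exact Units.ext h
    · intro t ht
      have ht' : t ≠ 0 := by simpa using ht
      exact ⟨Units.mk0 t ht', mem_univ _, rfl⟩
    · intro u _; rfl
  have hS1 : ∑ t : ZMod p, χ t * (H916R2.saw t : ℂ) ≠ 0 := by
    intro h0
    apply ha
    have := hS (Units.mk0 a ha0)
    rw [h0, mul_zero] at this
    rw [hunits]
    exact this
  have h2 : (2 : ZMod p) ≠ 0 := by
    intro h
    have : ((2 : ℕ) : ZMod p) = 0 := by exact_mod_cast h
    rw [ZMod.natCast_eq_zero_iff] at this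
    have := Nat.le_of_dvd (by norm_num) this
    omega
  have h4 := hS (Units.mk0 2 h2)
  have h5 : ∑ t : ZMod p, χ t * (H916R2.saw (t * ((Units.mk0 (2 : ZMod p) h2 : (ZMod p)ˣ) : ZMod p)) : ℂ) =
      2 * ∑ t : ZMod p, χ t * (H916R2.saw t : ℂ) + p * (2 * TT χ) := by
    rw [← sum_sg h3 χ hχ, mul_sum, mul_sum, ← sum_add_distrib]
    refine sum_congr rfl fun t _ => ?_
    rw [Units.val_mk0, mul_comm t 2, saw_two h3]
    push_cast
    ring
  rw [h5, hT, mul_zero, mul_zero, add_zero] at h4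
  have h6 : χ (((Units.mk0 (2 : ZMod p) h2)⁻¹ : (ZMod p)ˣ) : ZMod p) = 2 :=
    (mul_right_cancel₀ hS1 h4).symm
  have h7 := DirichletCharacter.unit_norm_eq_one χ ((Units.mk0 (2 : ZMod p) h2)⁻¹)
  rw [h6] at h7
  norm_num at h7

end Pool.Agent.H96R3
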