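import Mathlib
import Pool.Agent.H96R3.CharHalf

/-! Mean square and pointwise bounds for half-interval sums of odd characters. -/

open Finset

namespace Pool.Agent.H96R3

variable {p : ℕ} [hp : Fact p.Prime]

lemma sum_sg_sq (h3 : 3 ≤ p) : ∑ t : ZMod p, ((sg t : ℂ)) * (sg t : ℂ) = (p : ℂ) - 1 := by
  have h1 : ∀ t : ZMod p, ((sg t : ℂ)) * (sg t : ℂ) = 1 - (if t = 0 then 1 else 0) := by
    intro t
    unfold sg
    by_cases h0 : t = 0
    · simp [h0]
    · by_cases h : t.val < (p + 1) / 2 <;> simp [h0, h]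
  rw [sum_congr rfl fun t _ => h1 t, sum_sub_distrib]
  simp [ZMod.card]

lemma parseval (h3 : 3 ≤ p) :
    ∑ χ : DirichletCharacter ℂ p, ‖∑ t : ZMod p, χ t * (sg t : ℂ)‖ ^ 2 = ((p : ℝ) - 1) ^ 2 := by
  have key : ∑ χ : DirichletCharacter ℂ p,
      (∑ t : ZMod p, χ t * (sg t : ℂ)) * star (∑ t : ZMod p, χ t * (sg t : ℂ)) =
      ((p : ℂ) - 1) ^ 2 := by
    have h1 : ∀ χ : DirichletCharacter ℂ p,
        (∑ t : ZMod p, χ t * (sg t : ℂ)) * star (∑ t : ZMod p, χ t * (sg t : ℂ)) =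
        ∑ t : ZMod p, ∑ u : ZMod p, (sg t : ℂ) * (sg u : ℂ) * (χ u⁻¹ * χ t) := by
      intro χ
      rw [star_sum, sum_mul_sum]
      refine sum_congr rfl fun t _ => sum_congr rfl fun u _ => ?_
      rw [star_mul, MulChar.star_apply', MulChar.inv_apply']
      have : star ((sg u : ℤ) : ℂ) = (sg u : ℂ) := by
        rw [Complex.star_def, map_intCast]
      rw [this]
      ring
    rw [sum_congr rfl fun χ _ => h1 χ, sum_comm]
    have h2 : ∀ t : ZMod p, ∑ χ : DirichletCharacter ℂ p, ∑ u : ZMod p,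
        (sg t : ℂ) * (sg u : ℂ) * (χ u⁻¹ * χ t) = (sg t : ℂ) * (sg t : ℂ) * ((p : ℂ) - 1) := by
      intro t
      rw [sum_comm]
      have h3' : ∀ u : ZMod p, ∑ χ : DirichletCharacter ℂ p,
          (sg t : ℂ) * (sg u : ℂ) * (χ u⁻¹ * χ t) =
          if u = t then (sg t : ℂ) * (sg t : ℂ) * ((p : ℂ) - 1) else 0 := by
        intro u
        rw [← mul_sum]
        by_cases hu : u = 0
        · subst hu
          have : (sg (0 : ZMod p) : ℂ) = 0 := by simp [sg]
          rw [this]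
          by_cases ht : 0 = t
          · rw [if_pos ht, ← ht, this]; ring
          · rw [if_neg ht]; ring
        · rw [DirichletCharacter.sum_char_inv_mul_char_eq ℂ (isUnit_iff_ne_zero.2 hu) t]
          by_cases hut : u = t
          · rw [if_pos hut, if_pos hut, hut, Nat.totient_prime hp.out,
              Nat.cast_sub hp.out.one_lt.le, Nat.cast_one]
          · rw [if_neg hut, if_neg hut, mul_zero]
      rw [sum_congr rfl fun u _ => h3' u]
      simp
    rw [sum_congr rfl fun t _ => h2 t, ← sum_mul, sum_sg_sq h3]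
    ring
  have h5 : ((∑ χ : DirichletCharacter ℂ p, ‖∑ t : ZMod p, χ t * (sg t : ℂ)‖ ^ 2 : ℝ) : ℂ) =
      ((p : ℂ) - 1) ^ 2 := by
    rw [← key]
    push_cast
    refine sum_congr rfl fun χ _ => ?_
    rw [Complex.star_def, Complex.mul_conj, Complex.normSq_eq_norm_sq]
    push_cast
    rfl
  exact_mod_cast h5

/-- Mean square bound over any set of odd characters. -/
theorem sum_TT_sq_le (h3 : 3 ≤ p) (X : Finset (DirichletCharacter ℂ p))
    (hX : ∀ χ ∈ X, DirichletCharacter.Odd χ) :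
    ∑ χ ∈ X, ‖TT χ‖ ^ 2 ≤ ((p : ℝ) - 1) ^ 2 / 4 := by
  have h1 : ∑ χ ∈ X, ‖∑ t : ZMod p, χ t * (sg t : ℂ)‖ ^ 2 ≤ ((p : ℝ) - 1) ^ 2 := by
    rw [← parseval h3]
    exact sum_le_sum_of_subset_of_nonneg (subset_univ _) fun χ _ _ => by positivity
  have h2 : ∑ χ ∈ X, ‖∑ t : ZMod p, χ t * (sg t : ℂ)‖ ^ 2 = 4 * ∑ χ ∈ X, ‖TT χ‖ ^ 2 := by
    rw [mul_sum]
    refine sum_congr rfl fun χ hχ => ?_
    rw [sum_sg h3 χ (hX χ hχ), norm_mul, mul_pow]
    norm_num
  linarith

/-! ### The pointwise bound -/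

lemma sin_telescope (θ : ℝ) (n : ℕ) :
    2 * Real.sin θ * ∑ a ∈ range (n + 1), Real.sin (2 * a * θ) =
      Real.cos θ - Real.cos ((2 * n + 1) * θ) := by
  induction n with
  | zero => simp
  | succ n ih =>
    rw [sum_range_succ, mul_add, ih]
    have h := Real.cos_sub_cos ((2 * (n : ℝ) + 1) * θ) ((2 * ((n : ℝ) + 1) + 1) * θ)
    have e1 : ((2 * (n : ℝ) + 1) * θ + (2 * ((n : ℝ) + 1) + 1) * θ) / 2 = 2 * ((n : ℝ) + 1) * θ := by ring
    have e2 : ((2 * (n : ℝ) + 1) * θ - (2 * ((n : ℝ) + 1) + 1) * θ) / 2 = -θ := by ring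
    rw [e1, e2, Real.sin_neg] at h
    push_cast
    linarith

lemma half_cot_bound {θ : ℝ} (h0 : 0 < θ) (h1 : θ < Real.pi) :
    (1 + Real.cos θ) * θ ≤ 2 * Real.sin θ := by
  obtain ⟨x, hx⟩ : ∃ x, θ = 2 * x := ⟨θ / 2, by ring⟩
  have hx0 : 0 < x := by linarith
  have hx1 : x < Real.pi / 2 := by linarith
  have hc : 0 < Real.cos x := Real.cos_pos_of_mem_Ioo ⟨by linarith [Real.pi_pos], hx1⟩
  have hs : x * Real.cos x ≤ Real.sin x := by
    have h := (Real.lt_tan hx0 hx1).le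
    rw [Real.tan_eq_sin_div_cos, le_div_iff₀ hc] at h
    exact h
  rw [hx, Real.cos_two_mul, Real.sin_two_mul]
  nlinarith [mul_le_mul_of_nonneg_left hs hc.le]

lemma S_bound (h3 : 3 ≤ p) (v : ℕ) (hv : v % 2 = 1) (hvp : v < p) :
    |∑ a ∈ range ((p + 1) / 2), Real.sin (2 * a * (Real.pi * v / p))| ≤ p / (Real.pi * v) := by
  have hodd := odd_of_three h3
  set θ : ℝ := Real.pi * v / p with hθ
  have hp0 : (0 : ℝ) < p := by positivity
  have hv0 : (0 : ℝ) < v := by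
    have : 0 < v := by omega
    exact_mod_cast this
  have hθ0 : 0 < θ := by positivity
  have hθ1 : θ < Real.pi := by
    rw [hθ, div_lt_iff₀ hp0]
    have : (v : ℝ) < p := by exact_mod_cast hvp
    nlinarith [Real.pi_pos]
  have hs : 0 < Real.sin θ := Real.sin_pos_of_pos_of_lt_pi hθ0 hθ1
  obtain ⟨n, hn⟩ : ∃ n, p = 2 * n + 1 := ⟨p / 2, by omega⟩
  have hn' : (p + 1) / 2 = n + 1 := by omega
  have ht := sin_telescope θ n
  have hcos : Real.cos ((2 * n + 1) * θ) = -1 := by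
    have : (2 * (n : ℝ) + 1) * θ = (v : ℝ) * Real.pi := by
      have : (2 * (n : ℝ) + 1) = p := by rw [hn]; push_cast; ring
      rw [this, hθ]; field_simp
    rw [this, Real.cos_nat_mul_pi]
    exact Odd.neg_one_pow (Nat.odd_iff.2 hv)
  rw [hcos] at ht
  rw [hn']
  set S := ∑ a ∈ range (n + 1), Real.sin (2 * a * θ) with hS
  have hS0 : 0 ≤ S := by
    have : 0 ≤ 2 * Real.sin θ * S := by
      rw [ht]; linarith [Real.neg_one_le_cos θ]
    exact nonneg_of_mul_nonneg_right this (by positivity)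
  rw [abs_of_nonneg hS0]
  have hb := half_cot_bound hθ0 hθ1
  have h4 : S * θ ≤ 1 := by
    have : (2 * Real.sin θ) * (S * θ) ≤ 2 * Real.sin θ * 1 := by
      calc (2 * Real.sin θ) * (S * θ) = (2 * Real.sin θ * S) * θ := by ring
        _ = (1 + Real.cos θ) * θ := by rw [ht]; ring
        _ ≤ 2 * Real.sin θ * 1 := by linarith
    exact le_of_mul_le_mul_left this (by positivity)
  have h5 : (p : ℝ) / (Real.pi * v) = 1 / θ := by rw [hθ]; field_simp
  rw [h5, le_div_iff₀ hθ0]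
  exact h4

end Pool.Agent.H96R3
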