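import Mathlib
import Pool.Agent.H96R3.CharBound

/-! Polya-Vinogradov type bound for half-interval sums of odd characters modulo a prime. -/

open Finset

namespace Pool.Agent.H96R3

variable {p : ℕ} [hp : Fact p.Prime]

/-- The additive half sum. -/
noncomputable def EE (b : ZMod p) : ℂ := ∑ a ∈ range ((p + 1) / 2), ZMod.stdAddChar ((a : ZMod p) * b)

lemma stdAddChar_natCast_mul (a : ℕ) (b : ZMod p) :
    ZMod.stdAddChar ((a : ZMod p) * b) =
      Complex.exp ((2 * a * (Real.pi * b.val / p) : ℝ) * Complex.I) := by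
  have h : ((a : ZMod p) * b) = ((a * b.val : ℤ) : ZMod p) := by
    push_cast
    rw [ZMod.natCast_zmod_val]
  rw [h, ZMod.stdAddChar_coe]
  congr 1
  push_cast
  ring

lemma EE_diff (b : ZMod p) :
    ‖EE b - EE (-b)‖ = 2 * |∑ a ∈ range ((p + 1) / 2), Real.sin (2 * a * (Real.pi * b.val / p))| := by
  have h1 : EE b - EE (-b) = 2 * Complex.I *
      ((∑ a ∈ range ((p + 1) / 2), Real.sin (2 * a * (Real.pi * b.val / p)) : ℝ) : ℂ) := by
    unfold EE
    rw [← sum_sub_distrib]
    push_cast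
    rw [mul_sum]
    refine sum_congr rfl fun a _ => ?_
    rw [mul_neg, AddChar.map_neg_eq_inv, stdAddChar_natCast_mul, ← Complex.exp_neg]
    set x : ℝ := 2 * a * (Real.pi * b.val / p) with hx
    have h2 : ((x : ℝ) : ℂ) = 2 * (a : ℂ) * (Real.pi * (b.val : ℂ) / p) := by rw [hx]; push_cast; ring
    rw [← h2, Complex.sin, ← neg_mul]
    have hI : Complex.I * Complex.I = -1 := Complex.I_mul_I
    linear_combination (Complex.exp ((x:ℂ) * Complex.I) - Complex.exp (-(x:ℂ) * Complex.I)) * hI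
  rw [h1, norm_mul, norm_mul, Complex.norm_I, Complex.norm_real, Real.norm_eq_abs]
  norm_num

lemma norm_gaussSum_sq (χ : DirichletCharacter ℂ p) (hχ : χ ≠ 1) :
    ‖gaussSum χ (ZMod.stdAddChar (N := p))‖ ^ 2 = p := by
  have hprim : (ZMod.stdAddChar (N := p)).IsPrimitive := ZMod.isPrimitive_stdAddChar p
  have h := gaussSum_mul_gaussSum_eq_card (χ := χ) hχ hprim
  rw [← star_gaussSum_eq, Complex.star_def, Complex.mul_conj, Complex.normSq_eq_norm_sq,
    ZMod.card] at h
  exact_mod_cast h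

lemma TT_mul_gauss (χ : DirichletCharacter ℂ p) (hχ : χ.Odd) (hχ1 : χ⁻¹ ≠ 1) :
    2 * (TT χ * gaussSum χ⁻¹ (ZMod.stdAddChar (N := p))) =
      ∑ b : ZMod p, χ⁻¹ b * (EE b - EE (-b)) := by
  have hprim : (ZMod.stdAddChar (N := p)).IsPrimitive := ZMod.isPrimitive_stdAddChar p
  have h1 : TT χ * gaussSum χ⁻¹ (ZMod.stdAddChar (N := p)) = ∑ b : ZMod p, χ⁻¹ b * EE b := by
    unfold TT EE
    rw [sum_mul]
    simp_rw [mul_sum]
    rw [sum_comm]
    refine sum_congr rfl fun a _ => ?_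
    -- χ(a) τ(χ⁻¹) = ∑ χ⁻¹(b) ψ(ab)
    by_cases ha : (a : ZMod p) = 0
    · rw [ha, chi_zero, zero_mul]
      simp only [zero_mul, AddChar.map_zero_eq_one, mul_one]
      exact (MulChar.sum_eq_zero_of_ne_one hχ1).symm
    · have h := gaussSum_mulShift_eq χ⁻¹ (ZMod.stdAddChar (N := p)) (Units.mk0 (a : ZMod p) ha)
      rw [inv_inv, Units.val_mk0] at h
      rw [← h]
      unfold gaussSum
      refine sum_congr rfl fun b _ => ?_
      rw [AddChar.mulShift_apply]
  have h2 : ∑ b : ZMod p, χ⁻¹ b * EE (-b) = - ∑ b : ZMod p, χ⁻¹ b * EE b := by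
    have hodd : (χ⁻¹ : DirichletCharacter ℂ p).Odd := by
      unfold DirichletCharacter.Odd at hχ ⊢
      rw [MulChar.inv_apply_eq_inv', hχ]
      norm_num
    rw [← Equiv.sum_comp (Equiv.neg (ZMod p)), ← sum_neg_distrib]
    refine sum_congr rfl fun b _ => ?_
    simp only [Equiv.neg_apply, neg_neg]
    rw [DirichletCharacter.Odd.eval_neg (ψ := χ⁻¹) b hodd]
    ring
  simp_rw [mul_sub]
  rw [sum_sub_distrib, h2, h1]
  ring

lemma odd_harmonic (m : ℕ) :
    ∑ j ∈ range (m + 1), (1 : ℝ) / (2 * j + 1) ≤ 1 + (harmonic m : ℝ) / 2 := by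
  induction m with
  | zero => simp
  | succ m ih =>
    rw [sum_range_succ, harmonic_succ]
    push_cast
    have : (1 : ℝ) / (2 * ((m : ℝ) + 1) + 1) ≤ ((m : ℝ) + 1)⁻¹ / 2 := by
      rw [div_le_div_iff₀ (by positivity) (by positivity)]
      have h0 : ((m : ℝ) + 1)⁻¹ * ((m : ℝ) + 1) = 1 := by field_simp
      have h1 : (0 : ℝ) < ((m : ℝ) + 1)⁻¹ := by positivity
      nlinarith
    linarith

lemma sum_EE_diff (h5 : 5 ≤ p) :
    ∑ b : ZMod p, ‖EE b - EE (-b)‖ ≤ 2 * (p * Real.log p) := by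
  have h3 : 3 ≤ p := by omega
  have hodd := odd_of_three h3
  -- split according to parity of the value
  have hsym : ∑ b : ZMod p, (if b.val % 2 = 0 then ‖EE b - EE (-b)‖ else 0) =
      ∑ b : ZMod p, (if b.val % 2 = 1 then ‖EE b - EE (-b)‖ else 0) := by
    rw [← Equiv.sum_comp (Equiv.neg (ZMod p))]
    refine sum_congr rfl fun b _ => ?_
    simp only [Equiv.neg_apply, neg_neg]
    by_cases h0 : b = 0
    · subst h0
      simp
    · have : NeZero b := ⟨h0⟩
      rw [ZMod.val_neg_of_ne_zero, norm_sub_rev]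
      have h1 := ZMod.val_lt b
      by_cases hb : b.val % 2 = 1
      · rw [if_pos (by omega), if_pos hb]
      · rw [if_neg (by omega), if_neg hb]
  have hsplit : ∑ b : ZMod p, ‖EE b - EE (-b)‖ =
      2 * ∑ b : ZMod p, (if b.val % 2 = 1 then ‖EE b - EE (-b)‖ else 0) := by
    rw [two_mul]
    nth_rewrite 1 [← hsym]
    rw [← sum_add_distrib]
    refine sum_congr rfl fun b _ => ?_
    rcases Nat.mod_two_eq_zero_or_one b.val with h | h <;> simp [h]
  rw [hsplit]
  refine mul_le_mul_of_nonneg_left ?_ (by norm_num)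
  have hp0 : (0 : ℝ) < p := by positivity
  have hpi := Real.pi_pos
  -- bound each odd term
  have h1 : ∑ b : ZMod p, (if b.val % 2 = 1 then ‖EE b - EE (-b)‖ else 0) ≤
      ∑ j ∈ range ((p - 3) / 2 + 1), (2 * p / Real.pi) * (1 / (2 * (j : ℝ) + 1)) := by
    rw [← sum_filter]
    refine (sum_le_sum (g := fun b : ZMod p => (2 * p / Real.pi) * (1 / (b.val : ℝ))) ?_).trans ?_
    · intro b hb
      rw [mem_filter] at hb
      rw [EE_diff]
      have h := S_bound h3 b.val hb.2 (ZMod.val_lt b)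
      have e : (2 * p / Real.pi) * (1 / (b.val : ℝ)) = 2 * (p / (Real.pi * b.val)) := by
        rw [mul_one_div, div_div, mul_div_assoc]
      rw [e]
      linarith
    · apply le_of_eq
      refine sum_nbij' (fun b => b.val / 2) (fun j => ((2 * j + 1 : ℕ) : ZMod p)) ?_ ?_ ?_ ?_ ?_
      · intro b hb
        simp only [mem_filter, mem_univ, true_and] at hb
        rw [mem_range]
        have h1 := ZMod.val_lt b
        omega
      · intro j hj
        rw [mem_range] at hj
        simp only [mem_filter, mem_univ, true_and]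
        have h9 : (2 * j + 1) % p = 2 * j + 1 := Nat.mod_eq_of_lt (by omega)
        rw [ZMod.val_natCast, h9]
        omega
      · intro b hb
        simp only [mem_filter, mem_univ, true_and] at hb
        have : 2 * (b.val / 2) + 1 = b.val := by omega
        rw [this, ZMod.natCast_zmod_val]
      · intro j hj
        rw [mem_range] at hj
        show ((2 * j + 1 : ℕ) : ZMod p).val / 2 = j
        have h9 : (2 * j + 1) % p = 2 * j + 1 := Nat.mod_eq_of_lt (by omega)
        rw [ZMod.val_natCast, h9]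
        omega
      · intro b hb
        simp only [mem_filter, mem_univ, true_and] at hb
        have h2 : 2 * (b.val / 2) + 1 = b.val := by omega
        have h3 : 2 * ((b.val / 2 : ℕ) : ℝ) + 1 = b.val := by exact_mod_cast h2
        rw [h3]
  refine h1.trans ?_
  rw [← mul_sum]
  have h2 := odd_harmonic ((p - 3) / 2)
  have h4 : (harmonic ((p - 3) / 2) : ℝ) ≤ 1 + Real.log ((p - 3) / 2 : ℕ) :=
    harmonic_le_one_add_log _
  have h6 : Real.log (((p - 3) / 2 : ℕ) : ℝ) ≤ Real.log p - Real.log 2 := by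
    rw [← Real.log_div hp0.ne' (by norm_num)]
    apply Real.log_le_log
    · have : 0 < (p - 3) / 2 := by omega
      exact_mod_cast this
    · rw [le_div_iff₀ (by norm_num)]
      have : (p - 3) / 2 * 2 ≤ p := by omega
      exact_mod_cast this
  have hlog2 := Real.log_two_gt_d9
  have hlogp : 2 * Real.log 2 ≤ Real.log p := by
    have : Real.log ((2 : ℝ) ^ 2) ≤ Real.log p := by
      apply Real.log_le_log (by norm_num)
      have : (4 : ℝ) ≤ p := by exact_mod_cast (by omega : 4 ≤ p)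
      linarith
    rw [Real.log_pow] at this
    push_cast at this
    exact this
  set L := Real.log p with hL
  have h7 : ∑ j ∈ range ((p - 3) / 2 + 1), (1 : ℝ) / (2 * (j : ℝ) + 1) ≤ 3 / 2 + (L - Real.log 2) / 2 := by
    linarith
  have h8 : 3 / 2 + (L - Real.log 2) / 2 ≤ (Real.pi / 2) * L := by
    have hpi3 := Real.pi_gt_d2
    have : (1.57 : ℝ) * L ≤ Real.pi / 2 * L := by
      apply mul_le_mul_of_nonneg_right _ (by linarith)
      linarith
    linarith
  calc (2 * p / Real.pi) * ∑ j ∈ range ((p - 3) / 2 + 1), (1 : ℝ) / (2 * (j : ℝ) + 1)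
      ≤ (2 * p / Real.pi) * ((Real.pi / 2) * L) :=
        mul_le_mul_of_nonneg_left (h7.trans h8) (by positivity)
    _ = p * L := by field_simp

/-- Half-interval sums of odd characters modulo a prime `p ≥ 5` are at most `√p log p`. -/
theorem norm_TT_sq_le (h5 : 5 ≤ p) (χ : DirichletCharacter ℂ p) (hχ : χ.Odd) :
    ‖TT χ‖ ^ 2 ≤ p * Real.log p ^ 2 := by
  have hp0 : (0 : ℝ) < p := by positivity
  have hodd : (χ⁻¹ : DirichletCharacter ℂ p).Odd := by
    unfold DirichletCharacter.Odd at hχ ⊢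
    rw [MulChar.inv_apply_eq_inv', hχ]
    norm_num
  have hχ1 : χ⁻¹ ≠ 1 := by
    intro h
    unfold DirichletCharacter.Odd at hodd
    rw [h, MulChar.one_apply (by simp : IsUnit (-1 : ZMod p))] at hodd
    norm_num at hodd
  have h1 := TT_mul_gauss χ hχ hχ1
  have h2 : 2 * (‖TT χ‖ * ‖gaussSum χ⁻¹ (ZMod.stdAddChar (N := p))‖) ≤ 2 * (p * Real.log p) := by
    calc 2 * (‖TT χ‖ * ‖gaussSum χ⁻¹ (ZMod.stdAddChar (N := p))‖)
        = ‖2 * (TT χ * gaussSum χ⁻¹ (ZMod.stdAddChar (N := p)))‖ := by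
          rw [norm_mul, norm_mul]; norm_num
      _ = ‖∑ b : ZMod p, χ⁻¹ b * (EE b - EE (-b))‖ := by rw [h1]
      _ ≤ ∑ b : ZMod p, ‖χ⁻¹ b * (EE b - EE (-b))‖ := norm_sum_le _ _
      _ ≤ ∑ b : ZMod p, ‖EE b - EE (-b)‖ := by
          refine sum_le_sum fun b _ => ?_
          rw [norm_mul]
          have := DirichletCharacter.norm_le_one χ⁻¹ b
          exact mul_le_of_le_one_left (norm_nonneg _) this
      _ ≤ _ := sum_EE_diff h5
  have h3 : (‖TT χ‖ * ‖gaussSum χ⁻¹ (ZMod.stdAddChar (N := p))‖) ^ 2 ≤ (p * Real.log p) ^ 2 := by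
    apply pow_le_pow_left₀ (by positivity)
    linarith
  rw [mul_pow, norm_gaussSum_sq _ hχ1] at h3
  have h4 : ‖TT χ‖ ^ 2 * p ≤ (p * Real.log p ^ 2) * p := by
    calc ‖TT χ‖ ^ 2 * p ≤ (p * Real.log p) ^ 2 := h3
      _ = (p * Real.log p ^ 2) * p := by ring
  exact le_of_mul_le_mul_right h4 hp0

end Pool.Agent.H96R3
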