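import Mathlib
import Pool.Agent.H332R2.Window

/-! Irregular index implies vanishing of a half-interval power sum modulo `p`. -/

open Finset

namespace Pool.Agent.H96R3

variable {p : ℕ} [hp : Fact p.Prime]

lemma PP_sum (l : ℕ) (hl : l + 2 ≤ p) (n : ℕ) :
    (H332R2.PP p (l + 1)).eval (n : ZMod p) = (H332R2.PP p (l + 1)).eval 0 +
      (∑ a ∈ range n, (a : ZMod p) ^ l) * ((l.factorial : ℕ) : ZMod p)⁻¹ := by
  induction n with
  | zero => simp
  | succ n ih =>
    rw [Nat.cast_succ, H332R2.PP_diff hl, ih, Finset.sum_range_succ]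
    ring

/-- If `p` divides the numerator of `B_{l+1}`, then `∑_{a < (p+1)/2} a^l = 0` in `ZMod p`. -/
lemma half_sum_eq_zero (l : ℕ) (hl : l + 3 ≤ p) (hirr : (p : ℤ) ∣ (bernoulli (l + 1)).num) :
    ∑ a ∈ range ((p + 1) / 2), (a : ZMod p) ^ l = 0 := by
  have h3 : 3 ≤ p := by omega
  have hodd : p % 2 = 1 := by
    rcases hp.out.eq_two_or_odd with h | h
    · omega
    · exact h
  have hcc : H332R2.cc p (l + 1) = 0 := (H332R2.cc_eq_zero_iff (by omega) h3).2 hirr
  have h2 : (2 : ZMod p) ≠ 0 := by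
    have := H332R2.nat_ne_zero (p := p) (k := 2) (by norm_num) (by omega)
    exact_mod_cast this
  have hcast : (((p + 1) / 2 : ℕ) : ZMod p) = 2⁻¹ := by
    refine eq_inv_of_mul_eq_one_left ?_
    have : (p + 1) / 2 * 2 = p + 1 := by omega
    have h := congrArg (fun x : ℕ => (x : ZMod p)) this
    push_cast at h
    simpa using h
  have h := PP_sum (p := p) l (by omega) ((p + 1) / 2)
  rw [hcast, H332R2.PP_eval_half (by omega) h3, H332R2.PP_eval_zero, hcc, mul_zero, zero_add] at h
  have hf := H332R2.fact_ne_zero (p := p) (k := l) (by omega)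
  have h' := (mul_eq_zero.mp h.symm).resolve_right (inv_ne_zero hf)
  exact h'

end Pool.Agent.H96R3
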