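import Mathlib

/-! Products of polynomial values over primitive roots of unity: the `p`-part via the `p`-adic
integers and the absolute value over the complex numbers. -/

open Finset Polynomial

namespace Pool.Agent.H96R3

variable {p : ℕ} [hp : Fact p.Prime]

lemma toZMod_eq_zero_iff (x : ℤ_[p]) : PadicInt.toZMod x = 0 ↔ (p : ℤ_[p]) ∣ x := by
  rw [← PadicInt.norm_lt_one_iff_dvd, ← PadicInt.mem_nonunits, ← IsLocalRing.mem_maximalIdeal,
    ← PadicInt.ker_toZMod, RingHom.mem_ker]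

lemma norm_eq_one_of_toZMod (x : ℤ_[p]) (h : PadicInt.toZMod x ≠ 0) : ‖x‖ = 1 := by
  rw [Ne, toZMod_eq_zero_iff, ← PadicInt.norm_lt_one_iff_dvd, not_lt] at h
  exact le_antisymm (PadicInt.norm_le_one x) h

/-- Teichmueller lift. -/
lemma exists_teich (g : ZMod p) (hg : g ≠ 0) :
    ∃ z : ℤ_[p], z ^ (p - 1) = 1 ∧ PadicInt.toZMod z = g := by
  set a : ℤ_[p] := (g.val : ℤ_[p]) with ha
  have hag : PadicInt.toZMod a = g := by
    rw [ha, map_natCast, ZMod.natCast_zmod_val]
  set F : ℤ_[p][X] := X ^ (p - 1) - 1 with hF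
  have hFa : F.aeval a = a ^ (p - 1) - 1 := by simp [hF]
  have hFd : F.derivative.aeval a = ((p - 1 : ℕ) : ℤ_[p]) * a ^ (p - 1 - 1) := by
    simp [hF, derivative_X_pow]
  have h1 : ‖F.aeval a‖ < 1 := by
    rw [PadicInt.norm_lt_one_iff_dvd, ← toZMod_eq_zero_iff, hFa, map_sub, map_pow, hag, map_one,
      ZMod.pow_card_sub_one_eq_one hg, sub_self]
  have h2 : ‖F.derivative.aeval a‖ = 1 := by
    apply norm_eq_one_of_toZMod
    rw [hFd, map_mul, map_pow, hag, map_natCast]
    refine mul_ne_zero ?_ (pow_ne_zero _ hg)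
    intro h
    rw [ZMod.natCast_eq_zero_iff] at h
    have := Nat.le_of_dvd (by have := hp.out.two_le; omega) h
    have := hp.out.two_le
    omega
  obtain ⟨z, hz, hz2, -, -⟩ := hensels_lemma (F := F) (a := a) (by rw [h2]; simpa using h1)
  refine ⟨z, ?_, ?_⟩
  · have : F.aeval z = z ^ (p - 1) - 1 := by simp [hF]
    rw [this] at hz
    exact sub_eq_zero.1 hz
  · rw [h2] at hz2
    rw [PadicInt.norm_lt_one_iff_dvd, ← toZMod_eq_zero_iff, map_sub, hag] at hz2
    exact sub_eq_zero.1 hz2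

/-- The resultant of a cyclotomic polynomial and an integer polynomial. -/
noncomputable def RR (d : ℕ) (F : ℤ[X]) : ℤ :=
  resultant (cyclotomic d ℤ) F (cyclotomic d ℤ).natDegree F.natDegree

lemma RR_map {R : Type*} [CommRing R] [IsDomain R] (d : ℕ) (F : ℤ[X]) {ζ : R}
    (hζ : IsPrimitiveRoot ζ d) :
    ((RR d F : ℤ) : R) = ∏ μ ∈ primitiveRoots d R, (F.map (Int.castRingHom R)).eval μ := by
  have h1 := resultant_map_map (cyclotomic d ℤ) F (cyclotomic d ℤ).natDegree F.natDegree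
    (Int.castRingHom R)
  rw [map_cyclotomic] at h1
  have h2 : (cyclotomic d ℤ).natDegree = (cyclotomic d R).natDegree := by
    rw [natDegree_cyclotomic, natDegree_cyclotomic]
  have hprod := cyclotomic_eq_prod_X_sub_primitiveRoots hζ
  have hsplit : (cyclotomic d R).Splits := by
    rw [hprod]
    exact Splits.prod fun μ _ => Splits.X_sub_C μ
  have hroots : (cyclotomic d R).roots = (primitiveRoots d R).val := by
    rw [hprod, roots_prod_X_sub_C]
  have h3 := resultant_eq_prod_eval (cyclotomic d R) (F.map (Int.castRingHom R)) F.natDegree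
    natDegree_map_le hsplit
  rw [(cyclotomic.monic d R).leadingCoeff, one_pow, one_mul, hroots] at h3
  unfold RR
  have h4 : ((resultant (cyclotomic d ℤ) F (cyclotomic d ℤ).natDegree F.natDegree : ℤ) : R) =
      Int.castRingHom R (resultant (cyclotomic d ℤ) F (cyclotomic d ℤ).natDegree F.natDegree) := rfl
  rw [h4, ← h1, h2, h3]
  rfl

/-- The number of primitive `d`-th roots of unity modulo `p` at which `F` vanishes. -/
noncomputable def zc (p : ℕ) [Fact p.Prime] (d : ℕ) (F : ℤ[X]) : ℕ :=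
  ((primitiveRoots d (ZMod p)).filter
    (fun γ => (F.map (Int.castRingHom (ZMod p))).eval γ = 0)).card

theorem pow_dvd_RR (d : ℕ) (hd : d ∣ p - 1) (F : ℤ[X]) {g : ZMod p} (hg : IsPrimitiveRoot g (p - 1)) :
    (p : ℤ) ^ zc p d F ∣ RR d F := by
  classical
  have hp1 : 0 < p - 1 := by have := hp.out.two_le; omega
  have hg0 : g ≠ 0 := hg.ne_zero hp1.ne'
  obtain ⟨z, hz1, hz2⟩ := exists_teich g hg0
  have hz : IsPrimitiveRoot z (p - 1) := by
    refine ⟨hz1, fun l hl => ?_⟩
    apply hg.dvd_of_pow_eq_one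
    rw [← hz2, ← map_pow, hl, map_one]
  obtain ⟨e, he⟩ := hd
  have hw : IsPrimitiveRoot (z ^ e) d := hz.pow hp1 (by rw [he, mul_comm])
  have hgd : IsPrimitiveRoot (g ^ e) d := hg.pow hp1 (by rw [he, mul_comm])
  have hR := RR_map d F hw
  have key : (p : ℤ_[p]) ^ zc p d F ∣ ((RR d F : ℤ) : ℤ_[p]) := by
    rw [hR]
    set S := (primitiveRoots d ℤ_[p]).filter
      (fun μ => PadicInt.toZMod ((F.map (Int.castRingHom ℤ_[p])).eval μ) = 0) with hS
    have hd0 : 0 < d := Nat.pos_of_ne_zero (by rintro rfl; simp at he; omega)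
    have hmap : ∀ μ : ℤ_[p], PadicInt.toZMod ((F.map (Int.castRingHom ℤ_[p])).eval μ) =
        (F.map (Int.castRingHom (ZMod p))).eval (PadicInt.toZMod μ) := by
      intro μ
      rw [← eval₂_eq_eval_map, hom_eval₂, ← eval₂_eq_eval_map]
      congr 1
      exact RingHom.ext_int _ _
    have hcard : zc p d F ≤ S.card := by
      unfold zc
      refine (card_le_card (t := S.image PadicInt.toZMod) ?_).trans card_image_le
      intro γ hγ
      rw [mem_filter, mem_primitiveRoots hd0] at hγ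
      have : NeZero d := ⟨hd0.ne'⟩
      obtain ⟨i, -, hi, hγi⟩ := (hgd.isPrimitiveRoot_iff).1 hγ.1
      rw [mem_image]
      refine ⟨(z ^ e) ^ i, ?_, ?_⟩
      · rw [hS, mem_filter, mem_primitiveRoots hd0]
        refine ⟨hw.pow_of_coprime i hi, ?_⟩
        rw [hmap, map_pow, map_pow, hz2, hγi]
        exact hγ.2
      · rw [map_pow, map_pow, hz2, hγi]
    refine (pow_dvd_pow _ hcard).trans ?_
    calc (p : ℤ_[p]) ^ S.card = ∏ μ ∈ S, (p : ℤ_[p]) := by rw [prod_const]
      _ ∣ ∏ μ ∈ S, (F.map (Int.castRingHom ℤ_[p])).eval μ := by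
          refine prod_dvd_prod_of_dvd _ _ fun μ hμ => ?_
          rw [hS, mem_filter] at hμ
          exact (toZMod_eq_zero_iff _).1 hμ.2
      _ ∣ ∏ μ ∈ primitiveRoots d ℤ_[p], (F.map (Int.castRingHom ℤ_[p])).eval μ :=
          prod_dvd_prod_of_subset _ _ _ (filter_subset _ _)
  exact (PadicInt.pow_p_dvd_int_iff _ _).1 key

/-- If `F` has no zero among the primitive complex `d`-th roots of unity then the number of its
zeros among the primitive `d`-th roots of unity modulo `p` is bounded through the product of its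
absolute values. -/
theorem pow_zc_le (d : ℕ) (hd : d ∣ p - 1) (F : ℤ[X]) {g : ZMod p} (hg : IsPrimitiveRoot g (p - 1))
    (hF : ∀ ξ ∈ primitiveRoots d ℂ, (F.map (Int.castRingHom ℂ)).eval ξ ≠ 0) :
    (p : ℝ) ^ zc p d F ≤ ∏ ξ ∈ primitiveRoots d ℂ, ‖(F.map (Int.castRingHom ℂ)).eval ξ‖ := by
  have hp1 : 0 < p - 1 := by have := hp.out.two_le; omega
  have hd0 : d ≠ 0 := by rintro rfl; rw [zero_dvd_iff] at hd; omega
  have hC := RR_map d F (Complex.isPrimitiveRoot_exp d hd0)
  have hne : RR d F ≠ 0 := by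
    intro h
    rw [h, Int.cast_zero] at hC
    exact (prod_ne_zero_iff.2 hF) hC.symm
  have h1 := Int.le_of_dvd (abs_pos.2 hne) ((dvd_abs _ _).2 (pow_dvd_RR d hd F hg))
  have h2 : ((|RR d F| : ℤ) : ℝ) = ∏ ξ ∈ primitiveRoots d ℂ, ‖(F.map (Int.castRingHom ℂ)).eval ξ‖ := by
    rw [← norm_prod, ← hC, Complex.norm_intCast, Int.cast_abs]
  rw [← h2]
  exact_mod_cast h1

end Pool.Agent.H96R3
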