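import Mathlib
import Pool.Agent.H96R3.RegBern
import Pool.Agent.H96R3.CharPV
import Pool.Agent.H96R3.RegPadic

/-! Upper bound for the number of irregular indices in unions of gcd classes. -/

open Finset

namespace Pool.Agent.H96R3

variable {p : ℕ} [hp : Fact p.Prime]

lemma pow_half_neg_one {R : Type*} [CommRing R] [IsDomain R] {ζ : R} {m : ℕ} (hm : 0 < m)
    (h : IsPrimitiveRoot ζ (2 * m)) : ζ ^ m = -1 :=
  (h.pow (a := m) (b := 2) (by omega) (by ring)).eq_neg_one_of_two_right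

lemma exists_ind (g : (ZMod p)ˣ) (hg : ∀ x, x ∈ Subgroup.zpowers g) :
    ∃ ind : ZMod p → ℕ, ∀ a : ZMod p, a ≠ 0 → (g : ZMod p) ^ ind a = a := by
  have h : ∀ a : ZMod p, ∃ n : ℕ, a ≠ 0 → (g : ZMod p) ^ n = a := by
    intro a
    by_cases ha : a = 0
    · exact ⟨0, fun h => absurd ha h⟩
    · have h1 := hg (Units.mk0 a ha)
      rw [← mem_powers_iff_mem_zpowers, Submonoid.mem_powers_iff] at h1
      obtain ⟨n, hn⟩ := h1
      refine ⟨n, fun _ => ?_⟩
      rw [← Units.val_pow_eq_pow_val, hn, Units.val_mk0]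
  choose ind hind using h
  exact ⟨ind, hind⟩

/-- The polynomial `∑_{0<a<p/2} X^{ind a}`. -/
noncomputable def FF (p : ℕ) (ind : ZMod p → ℕ) : Polynomial ℤ :=
  ∑ a ∈ Ico 1 ((p + 1) / 2), Polynomial.X ^ ind (a : ZMod p)

lemma FF_eval {R : Type*} [CommRing R] (ind : ZMod p → ℕ) (x : R) :
    ((FF p ind).map (Int.castRingHom R)).eval x = ∑ a ∈ Ico 1 ((p + 1) / 2), x ^ ind (a : ZMod p) := by
  unfold FF
  rw [Polynomial.map_sum, Polynomial.eval_finsetSum]
  refine sum_congr rfl fun a _ => ?_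
  simp

lemma cast_ne_zero_of_mem (h3 : 3 ≤ p) {a : ℕ} (ha : a ∈ Ico 1 ((p + 1) / 2)) : (a : ZMod p) ≠ 0 := by
  rw [mem_Ico] at ha
  exact H332R2.nat_ne_zero (by omega) (by omega)

/-- evaluation at complex roots of unity gives the half-interval character sums -/
lemma exists_char (h3 : 3 ≤ p) (g : (ZMod p)ˣ) (hg : ∀ x, x ∈ Subgroup.zpowers g)
    (ind : ZMod p → ℕ) (hind : ∀ a : ZMod p, a ≠ 0 → (g : ZMod p) ^ ind a = a)
    (ξ : ℂ) (hξ : ξ ^ (p - 1) = 1) :
    ∃ χ : DirichletCharacter ℂ p, χ (g : ZMod p) = ξ ∧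
      ((FF p ind).map (Int.castRingHom ℂ)).eval ξ = TT χ := by
  have hξ0 : ξ ≠ 0 := by
    rintro rfl
    rw [zero_pow (by omega)] at hξ
    exact zero_ne_one hξ
  have hmem : Units.mk0 ξ hξ0 ∈ rootsOfUnity (Fintype.card (ZMod p)ˣ) ℂ := by
    rw [mem_rootsOfUnity, ZMod.card_units_eq_totient, Nat.totient_prime hp.out]
    ext
    simpa using hξ
  refine ⟨MulChar.ofRootOfUnity hmem hg, ?_, ?_⟩
  · rw [MulChar.ofRootOfUnity_spec, Units.val_mk0]
  · set χ : DirichletCharacter ℂ p := MulChar.ofRootOfUnity hmem hg with hχ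
    have hχg : χ (g : ZMod p) = ξ := by rw [hχ, MulChar.ofRootOfUnity_spec, Units.val_mk0]
    rw [FF_eval]
    unfold TT
    rw [range_eq_Ico, ← Finset.sum_Ico_consecutive _ (Nat.zero_le 1) (by omega : 1 ≤ (p + 1) / 2)]
    have h0 : ∑ a ∈ Ico 0 1, χ ((a : ℕ) : ZMod p) = 0 := by simp [chi_zero]
    rw [h0, zero_add]
    refine sum_congr rfl fun a ha => ?_
    conv_rhs => rw [← hind _ (cast_ne_zero_of_mem h3 ha), map_pow, hχg]

/-- evaluation at powers of the generator modulo `p` gives power sums -/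
lemma FF_eval_pow (h3 : 3 ≤ p) (g : (ZMod p)ˣ)
    (ind : ZMod p → ℕ) (hind : ∀ a : ZMod p, a ≠ 0 → (g : ZMod p) ^ ind a = a)
    (j : ℕ) (hj : 1 ≤ j) :
    ((FF p ind).map (Int.castRingHom (ZMod p))).eval ((g : ZMod p) ^ j) =
      ∑ a ∈ range ((p + 1) / 2), (a : ZMod p) ^ j := by
  rw [FF_eval, range_eq_Ico,
    ← Finset.sum_Ico_consecutive _ (Nat.zero_le 1) (by omega : 1 ≤ (p + 1) / 2)]
  have h0 : ∑ a ∈ Ico 0 1, ((a : ℕ) : ZMod p) ^ j = 0 := by
    simp [zero_pow (by omega : j ≠ 0)]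
  rw [h0, zero_add]
  refine sum_congr rfl fun a ha => ?_
  rw [← pow_mul, mul_comm j, pow_mul, hind _ (cast_ne_zero_of_mem h3 ha)]

lemma isPrimitiveRoot_gen (g : (ZMod p)ˣ) (hg : ∀ x, x ∈ Subgroup.zpowers g) :
    IsPrimitiveRoot (g : ZMod p) (p - 1) := by
  have h1 : orderOf g = p - 1 := by
    rw [orderOf_eq_card_of_forall_mem_zpowers hg, Nat.card_eq_fintype_card,
      ZMod.card_units_eq_totient, Nat.totient_prime hp.out]
  have h2 := IsPrimitiveRoot.orderOf g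
  rw [h1] at h2
  exact IsPrimitiveRoot.coe_units_iff.2 h2

lemma pow_mem_primitiveRoots {g : ZMod p} (hg : IsPrimitiveRoot g (p - 1)) (j : ℕ) :
    IsPrimitiveRoot (g ^ j) ((p - 1) / Nat.gcd j (p - 1)) := by
  have hp1 : 0 < p - 1 := by have := hp.out.two_le; omega
  set e := Nat.gcd j (p - 1) with he
  have hepos : 0 < e := Nat.gcd_pos_of_pos_right _ hp1
  have h1 : IsPrimitiveRoot (g ^ e) ((p - 1) / e) :=
    hg.pow hp1 (Nat.mul_div_cancel' (Nat.gcd_dvd_right _ _)).symm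
  have h2 : (j / e).Coprime ((p - 1) / e) := Nat.coprime_div_gcd_div_gcd hepos
  have h3 := h1.pow_of_coprime _ h2
  rwa [← pow_mul, Nat.mul_div_cancel' (Nat.gcd_dvd_left _ _)] at h3

/-- The even indices `2 ≤ k ≤ p - 1` with `gcd (k-1) (p-1) ∈ E`. -/
def UU (p : ℕ) (E : Finset ℕ) : Finset ℕ :=
  (Icc 2 (p - 1)).filter (fun k => Even k ∧ Nat.gcd (k - 1) (p - 1) ∈ E)

/-- The irregular ones among them. -/
noncomputable def II (p : ℕ) (E : Finset ℕ) : Finset ℕ :=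
  (Icc 2 (p - 3)).filter (fun k => Even k ∧ Nat.gcd (k - 1) (p - 1) ∈ E ∧ (p : ℤ) ∣ (bernoulli k).num)

lemma odd_gcd (h3 : 3 ≤ p) {k : ℕ} (hk2 : 2 ≤ k) (hk : Even k) : Odd (Nat.gcd (k - 1) (p - 1)) := by
  have h1 : Odd (k - 1) := by
    obtain ⟨m, hm⟩ := hk
    exact ⟨m - 1, by omega⟩
  exact Odd.of_dvd_nat h1 (Nat.gcd_dvd_left _ _)

lemma II_card_le (h3 : 3 ≤ p) (E : Finset ℕ) (g : (ZMod p)ˣ) (hg : ∀ x, x ∈ Subgroup.zpowers g)
    (ind : ZMod p → ℕ) (hind : ∀ a : ZMod p, a ≠ 0 → (g : ZMod p) ^ ind a = a) :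
    (II p E).card ≤ ∑ e ∈ E.filter (fun e => e ∣ p - 1 ∧ Odd e), zc p ((p - 1) / e) (FF p ind) := by
  have hprim := isPrimitiveRoot_gen g hg
  rw [card_eq_sum_card_fiberwise (f := fun k => Nat.gcd (k - 1) (p - 1))
    (t := E.filter (fun e => e ∣ p - 1 ∧ Odd e))]
  · refine sum_le_sum fun e he => ?_
    unfold zc
    refine card_le_card_of_injOn (fun k => (g : ZMod p) ^ (k - 1)) ?_ ?_
    · intro k hk
      simp only [II, mem_filter, mem_Icc, Finset.coe_filter, Set.mem_setOf_eq] at hk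
      obtain ⟨⟨⟨hk2, hkp⟩, heven, hE, hdvd⟩, hge⟩ := hk
      simp only [Finset.coe_filter, Set.mem_setOf_eq]
      have hp1 : 0 < p - 1 := by omega
      have hepos : 0 < e := by rw [← hge]; exact Nat.gcd_pos_of_pos_right _ hp1
      have hed : e ∣ p - 1 := by rw [← hge]; exact Nat.gcd_dvd_right _ _
      refine ⟨?_, ?_⟩
      · rw [mem_primitiveRoots (Nat.div_pos (Nat.le_of_dvd hp1 hed) hepos), ← hge]
        exact pow_mem_primitiveRoots hprim _
      · rw [FF_eval_pow h3 g ind hind (k - 1) (by omega)]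
        apply half_sum_eq_zero (k - 1) (by omega)
        have : k - 1 + 1 = k := by omega
        rw [this]
        exact hdvd
    · intro k hk l hl hkl
      simp only [II, mem_filter, mem_Icc, Finset.coe_filter, Set.mem_setOf_eq] at hk hl
      have := hprim.pow_inj (i := k - 1) (j := l - 1) (by omega) (by omega) hkl
      omega
  · intro k hk
    simp only [II, Finset.coe_filter, mem_Icc, Set.mem_setOf_eq] at hk
    simp only [Finset.coe_filter, Set.mem_setOf_eq]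
    exact ⟨hk.2.2.1, Nat.gcd_dvd_right _ _, odd_gcd h3 hk.1.1 hk.2.1⟩

lemma UU_card (h3 : 3 ≤ p) (E : Finset ℕ) :
    (UU p E).card = ∑ e ∈ E.filter (fun e => e ∣ p - 1 ∧ Odd e), Nat.totient ((p - 1) / e) := by
  have hodd := odd_of_three h3
  rw [card_eq_sum_card_fiberwise (f := fun k => Nat.gcd (k - 1) (p - 1))
    (t := E.filter (fun e => e ∣ p - 1 ∧ Odd e))]
  · refine sum_congr rfl fun e he => ?_
    rw [mem_filter] at he
    obtain ⟨heE, hed, heo⟩ := he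
    rw [Nat.totient_div_of_dvd hed]
    refine card_nbij' (fun k => k - 1) (fun j => j + 1) ?_ ?_ ?_ ?_
    · intro k hk
      simp only [UU, mem_filter, mem_Icc, Finset.coe_filter, Set.mem_setOf_eq] at hk
      simp only [Finset.coe_filter, Set.mem_setOf_eq, mem_range]
      refine ⟨by omega, ?_⟩
      rw [Nat.gcd_comm]; exact hk.2
    · intro j hj
      simp only [Finset.coe_filter, Set.mem_setOf_eq, mem_range] at hj
      simp only [UU, mem_filter, mem_Icc, Finset.coe_filter, Set.mem_setOf_eq]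
      obtain ⟨hj1, hj2⟩ := hj
      have hj0 : j ≠ 0 := by
        rintro rfl
        rw [Nat.gcd_zero_right] at hj2
        rw [← hj2] at heo
        rw [Nat.odd_iff] at heo
        omega
      have hjo : Odd j := by
        by_contra hcon
        rw [Nat.not_odd_iff_even] at hcon
        have h2 : 2 ∣ Nat.gcd (p - 1) j := Nat.dvd_gcd (by omega) hcon.two_dvd
        rw [hj2] at h2
        rw [Nat.odd_iff] at heo
        omega
      rw [Nat.gcd_comm] at hj2
      refine ⟨⟨⟨by omega, by omega⟩, ?_, ?_⟩, ?_⟩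
      · obtain ⟨m, hm⟩ := hjo
        exact ⟨m + 1, by omega⟩
      · rw [Nat.add_sub_cancel, hj2]; exact heE
      · rw [Nat.add_sub_cancel, hj2]
    · intro k hk
      simp only [UU, mem_filter, mem_Icc, Finset.coe_filter, Set.mem_setOf_eq] at hk
      show k - 1 + 1 = k
      omega
    · intro j _
      show j + 1 - 1 = j
      omega
  · intro k hk
    simp only [UU, Finset.coe_filter, mem_Icc, Set.mem_setOf_eq] at hk
    simp only [Finset.coe_filter, Set.mem_setOf_eq]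
    exact ⟨hk.2.2, Nat.gcd_dvd_right _ _, odd_gcd h3 hk.1.1 hk.2.1⟩

/-- Data attached to complex roots of unity of the relevant orders. -/
lemma exists_odd_char (h3 : 3 ≤ p) (g : (ZMod p)ˣ) (hg : ∀ x, x ∈ Subgroup.zpowers g)
    (ind : ZMod p → ℕ) (hind : ∀ a : ZMod p, a ≠ 0 → (g : ZMod p) ^ ind a = a)
    (e : ℕ) (hed : e ∣ p - 1) (heo : Odd e) (ξ : ℂ) (hξ : ξ ∈ primitiveRoots ((p - 1) / e) ℂ) :
    ∃ χ : DirichletCharacter ℂ p, χ (g : ZMod p) = ξ ∧ χ.Odd ∧
      ((FF p ind).map (Int.castRingHom ℂ)).eval ξ = TT χ := by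
  have hodd := odd_of_three h3
  have hp1 : 0 < p - 1 := by omega
  have hepos : 0 < e := Nat.pos_of_dvd_of_pos hed hp1
  have hdpos : 0 < (p - 1) / e := Nat.div_pos (Nat.le_of_dvd hp1 hed) hepos
  rw [mem_primitiveRoots hdpos] at hξ
  have hde : (p - 1) / e * e = p - 1 := Nat.div_mul_cancel hed
  obtain ⟨d', hd'⟩ : ∃ d', (p - 1) / e = 2 * d' := by
    have h2 : Even ((p - 1) / e * e) := by rw [hde]; exact ⟨(p - 1) / 2, by omega⟩
    rw [Nat.even_mul] at h2
    rcases h2 with h | h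
    · obtain ⟨m, hm⟩ := h; exact ⟨m, by omega⟩
    · exact absurd h (Nat.not_even_iff_odd.2 heo)
  have hξ1 : ξ ^ (p - 1) = 1 := by
    rw [← hde, pow_mul, hξ.pow_eq_one, one_pow]
  obtain ⟨χ, hχg, hχ⟩ := exists_char h3 g hg ind hind ξ hξ1
  refine ⟨χ, hχg, ?_, hχ⟩
  unfold DirichletCharacter.Odd
  have hgp := isPrimitiveRoot_gen g hg
  have hm : p - 1 = 2 * (d' * e) := by rw [← hde, hd']; ring
  have hd'pos : 0 < d' := by omega
  have hg1 : (g : ZMod p) ^ (d' * e) = -1 := by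
    rw [hm] at hgp
    exact pow_half_neg_one (Nat.mul_pos hd'pos hepos) hgp
  rw [← hg1, map_pow, hχg, pow_mul]
  rw [hd'] at hξ
  rw [pow_half_neg_one hd'pos hξ]
  exact heo.neg_one_pow

/-- the master inequality -/
theorem card_irregular_le (h5 : 5 ≤ p) (E : Finset ℕ) :
    ((II p E).card : ℝ) * Real.log p ≤ ((UU p E).card : ℝ) / 2 *
      Real.log (min ((p : ℝ) * Real.log p ^ 2) (((p : ℝ) - 1) ^ 2 / (4 * (UU p E).card))) := by
  classical
  have h3 : 3 ≤ p := by omega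
  have hodd := odd_of_three h3
  have hp1 : 0 < p - 1 := by omega
  obtain ⟨g, hg⟩ := IsCyclic.exists_generator (α := (ZMod p)ˣ)
  obtain ⟨ind, hind⟩ := exists_ind g hg
  have hprim := isPrimitiveRoot_gen g hg
  set E' := E.filter (fun e => e ∣ p - 1 ∧ Odd e) with hE'
  set F := FF p ind with hF
  have hp0 : (0 : ℝ) < p := by positivity
  have hpR : (5 : ℝ) ≤ p := by exact_mod_cast h5
  -- nonvanishing
  have hne : ∀ e ∈ E', ∀ ξ ∈ primitiveRoots ((p - 1) / e) ℂ,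
      (F.map (Int.castRingHom ℂ)).eval ξ ≠ 0 := by
    intro e he ξ hξ
    rw [hE', mem_filter] at he
    obtain ⟨χ, -, hχo, hχ⟩ := exists_odd_char h3 g hg ind hind e he.2.1 he.2.2 ξ hξ
    rw [hF, hχ]
    exact TT_ne_zero h3 χ hχo
  -- logs
  set f : ℂ → ℝ := fun ξ => ‖(F.map (Int.castRingHom ℂ)).eval ξ‖ with hf
  have h1 : ∀ e ∈ E', (zc p ((p - 1) / e) F : ℝ) * Real.log p ≤
      ∑ ξ ∈ primitiveRoots ((p - 1) / e) ℂ, Real.log (f ξ) := by
    intro e he
    have hed : (p - 1) / e ∣ p - 1 := by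
      rw [hE', mem_filter] at he
      exact Nat.div_dvd_of_dvd he.2.1
    have h := pow_zc_le ((p - 1) / e) hed F hprim (hne e he)
    have h' := Real.log_le_log (by positivity) h
    rw [Real.log_pow, Real.log_prod (fun ξ hξ => norm_ne_zero_iff.2 (hne e he ξ hξ))] at h'
    exact h'
  have hlogp : 0 < Real.log p := Real.log_pos (by linarith)
  set Ξ := E'.biUnion (fun e => primitiveRoots ((p - 1) / e) ℂ) with hΞ
  have hdisj : ∀ e ∈ E', ∀ e' ∈ E', e ≠ e' →
      Disjoint (primitiveRoots ((p - 1) / e) ℂ) (primitiveRoots ((p - 1) / e') ℂ) := by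
    intro e he e' he' hee
    rw [hE', mem_filter] at he he'
    apply IsPrimitiveRoot.disjoint
    intro h
    apply hee
    have a1 : (p - 1) / e * e = p - 1 := Nat.div_mul_cancel he.2.1
    have a2 : (p - 1) / e' * e' = p - 1 := Nat.div_mul_cancel he'.2.1
    rw [h] at a1
    have a3 : 0 < (p - 1) / e' :=
      Nat.div_pos (Nat.le_of_dvd hp1 he'.2.1) (Nat.pos_of_dvd_of_pos he'.2.1 hp1)
    exact Nat.eq_of_mul_eq_mul_left a3 (a1.trans a2.symm)
  have hN : (Ξ.card : ℝ) = ((UU p E).card : ℝ) := by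
    rw [UU_card h3, hΞ, card_biUnion hdisj]
    congr 1
    refine sum_congr rfl fun e he => ?_
    rw [mem_filter] at he
    have a3 : 0 < (p - 1) / e :=
      Nat.div_pos (Nat.le_of_dvd hp1 he.2.1) (Nat.pos_of_dvd_of_pos he.2.1 hp1)
    rw [(Complex.isPrimitiveRoot_exp _ a3.ne').card_primitiveRoots]
  have h2 : ((II p E).card : ℝ) * Real.log p ≤ ∑ ξ ∈ Ξ, Real.log (f ξ) := by
    rw [hΞ, sum_biUnion hdisj]
    have h := II_card_le h3 E g hg ind hind
    have h' : ((II p E).card : ℝ) ≤ ∑ e ∈ E', (zc p ((p - 1) / e) F : ℝ) := by exact_mod_cast h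
    calc ((II p E).card : ℝ) * Real.log p
        ≤ (∑ e ∈ E', (zc p ((p - 1) / e) F : ℝ)) * Real.log p :=
          mul_le_mul_of_nonneg_right h' hlogp.le
      _ = ∑ e ∈ E', (zc p ((p - 1) / e) F : ℝ) * Real.log p := by rw [sum_mul]
      _ ≤ _ := sum_le_sum h1
  -- characters
  have hchar : ∀ ξ ∈ Ξ, ∃ χ : DirichletCharacter ℂ p, χ (g : ZMod p) = ξ ∧ χ.Odd ∧
      (F.map (Int.castRingHom ℂ)).eval ξ = TT χ := by
    intro ξ hξ
    rw [hΞ, mem_biUnion] at hξ
    obtain ⟨e, he, hξe⟩ := hξ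
    rw [hE', mem_filter] at he
    exact exists_odd_char h3 g hg ind hind e he.2.1 he.2.2 ξ hξe
  have hfpos : ∀ ξ ∈ Ξ, 0 < f ξ := by
    intro ξ hξ
    obtain ⟨χ, -, hχo, hχ⟩ := hchar ξ hξ
    rw [hf]
    simp only
    rw [hχ]
    exact norm_pos_iff.2 (TT_ne_zero h3 χ hχo)
  -- the pointwise bound
  have hB1 : ∑ ξ ∈ Ξ, Real.log (f ξ) ≤ (Ξ.card : ℝ) / 2 * Real.log ((p : ℝ) * Real.log p ^ 2) := by
    have : ∀ ξ ∈ Ξ, Real.log (f ξ) ≤ 1 / 2 * Real.log ((p : ℝ) * Real.log p ^ 2) := by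
      intro ξ hξ
      obtain ⟨χ, -, hχo, hχ⟩ := hchar ξ hξ
      have hb := norm_TT_sq_le h5 χ hχo
      rw [← hχ] at hb
      have hb' := Real.log_le_log (by have := hfpos ξ hξ; positivity) hb
      rw [Real.log_pow] at hb'
      push_cast at hb'
      have : Real.log (f ξ) = Real.log ‖(F.map (Int.castRingHom ℂ)).eval ξ‖ := rfl
      linarith
    calc ∑ ξ ∈ Ξ, Real.log (f ξ) ≤ ∑ ξ ∈ Ξ, 1 / 2 * Real.log ((p : ℝ) * Real.log p ^ 2) :=
          sum_le_sum this
      _ = _ := by rw [sum_const, nsmul_eq_mul]; ring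
  -- the mean square
  have hsq : ∑ ξ ∈ Ξ, f ξ ^ 2 ≤ ((p : ℝ) - 1) ^ 2 / 4 := by
    choose! ch hch using hchar
    have hinj : Set.InjOn ch Ξ := by
      intro a ha b hb hab
      rw [← (hch a ha).1, ← (hch b hb).1, hab]
    have h := sum_TT_sq_le h3 (Ξ.image ch) (by
      intro χ hχ
      rw [mem_image] at hχ
      obtain ⟨ξ, hξ, rfl⟩ := hχ
      exact (hch ξ hξ).2.1)
    rw [sum_image hinj] at h
    refine le_trans (le_of_eq (sum_congr rfl fun ξ hξ => ?_)) h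
    rw [hf]
    simp only
    rw [(hch ξ hξ).2.2]
  rw [← hN]
  rcases Nat.eq_zero_or_pos Ξ.card with h0 | hpos
  · rw [h0]
    have : Ξ = ∅ := card_eq_zero.1 h0
    rw [this] at h2
    simpa using h2
  have hNR : (0 : ℝ) < Ξ.card := by exact_mod_cast hpos
  set A : ℝ := ((p : ℝ) - 1) ^ 2 / (4 * Ξ.card) with hA
  have hApos : 0 < A := by
    rw [hA]
    have : 0 < (p : ℝ) - 1 := by linarith
    positivity
  have hB2 : ∑ ξ ∈ Ξ, Real.log (f ξ) ≤ (Ξ.card : ℝ) / 2 * Real.log A := by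
    have : ∀ ξ ∈ Ξ, Real.log (f ξ) ≤ 1 / 2 * (Real.log A + (f ξ ^ 2 / A - 1)) := by
      intro ξ hξ
      have hfp := hfpos ξ hξ
      have h := Real.log_le_sub_one_of_pos (x := f ξ ^ 2 / A) (by positivity)
      rw [Real.log_div (by positivity) hApos.ne', Real.log_pow] at h
      push_cast at h
      linarith
    calc ∑ ξ ∈ Ξ, Real.log (f ξ) ≤ ∑ ξ ∈ Ξ, 1 / 2 * (Real.log A + (f ξ ^ 2 / A - 1)) :=
          sum_le_sum this
      _ = (Ξ.card : ℝ) / 2 * Real.log A + 1 / 2 * ((∑ ξ ∈ Ξ, f ξ ^ 2) / A - Ξ.card) := by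
          rw [← mul_sum, sum_add_distrib, sum_sub_distrib, ← sum_div, sum_const, sum_const,
            nsmul_eq_mul, nsmul_eq_mul]
          ring
      _ ≤ (Ξ.card : ℝ) / 2 * Real.log A := by
          have : (∑ ξ ∈ Ξ, f ξ ^ 2) / A ≤ Ξ.card := by
            rw [div_le_iff₀ hApos]
            calc ∑ ξ ∈ Ξ, f ξ ^ 2 ≤ ((p : ℝ) - 1) ^ 2 / 4 := hsq
              _ = Ξ.card * A := by rw [hA]; field_simp
          linarith
  rcases min_choice ((p : ℝ) * Real.log p ^ 2) A with hmin | hmin <;> rw [hmin]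
  · exact h2.trans hB1
  · exact h2.trans hB2

end Pool.Agent.H96R3
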